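import Pool.Agent.Helper80.LL.PLem
import Pool.Agent.Helper84.SPFinal

set_option autoImplicit false

/-!
MP_120218_co, theorem LL: the product side.
-/

open Finset
open Pool.Agent.Helper84.SP

namespace Pool.Agent.Helper80.LL

/-- averaging one coordinate over a product set -/
theorem pi_sum {k : ℕ} (D : Fin k → Finset ℕ) (i : Fin k) (g : ℕ → ℝ) :
    ((D i).card : ℝ) * ∑ y ∈ Fintype.piFinset D, g (y i) =
      ((Fintype.piFinset D).card : ℝ) * ∑ z ∈ D i, g z := by
  have h1 : ∑ y ∈ Fintype.piFinset D, g (y i) =
      (∏ j ∈ univ \ {i}, ((D j).card : ℝ)) * ∑ z ∈ D i, g z := by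
    rw [← sum_fiberwise_of_maps_to (s := Fintype.piFinset D) (t := D i) (g := fun y => y i)
      (fun y hy => Fintype.mem_piFinset.1 hy i), mul_sum]
    apply sum_congr rfl
    intro z hz
    have h2 : ∀ y ∈ (Fintype.piFinset D).filter (fun y => y i = z), g (y i) = g z := by
      intro y hy
      rw [(mem_filter.1 hy).2]
    rw [sum_congr rfl h2, sum_const, nsmul_eq_mul]
    have h3 := card_coord D i (S := {z}) (singleton_subset_iff.2 hz)
    simp only [mem_singleton, card_singleton, one_mul] at h3
    rw [h3]
    push_cast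
    rfl
  have h4 : ((Fintype.piFinset D).card : ℝ) =
      (D i).card * ∏ j ∈ univ \ {i}, ((D j).card : ℝ) := by
    rw [card_pi_split D i]
    push_cast
    rfl
  rw [h1, h4]
  ring

/-- the value to be paid by the products -/
noncomputable def val (C : ℝ) (ps : List ℕ) (E : Finset ℕ) : ℝ :=
  Real.log E.card - C * (Psi ps E / E.card)

theorem prod_ind {k : ℕ} (hk : 1 ≤ k) (ps : List ℕ) : ∀ D : Fin k → Finset ℕ,
    (∀ i, (D i).Nonempty) → (∀ i, ∀ y ∈ D i, 0 < y) →
    (∀ i, ∀ y ∈ D i, ∀ y' ∈ D i, (∀ q ∈ ps, y.factorization q = y'.factorization q) → y = y') →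
    ((Fintype.piFinset D).card : ℝ) * ∑ i, val (2 * Real.log k + 7) ps (D i) ≤
      En (Fintype.piFinset D) (fun y => ∏ i, y i) := by
  classical
  induction ps with
  | nil =>
    intro D hD _ hsep
    have h1 : ∀ i, (D i).card = 1 := by
      intro i
      apply le_antisymm _ (card_pos.2 (hD i))
      rw [card_le_one]
      intro a ha b hb
      exact hsep i a ha b hb (by simp)
    have h2 : ∑ i, val (2 * Real.log k + 7) [] (D i) = 0 := by
      apply sum_eq_zero
      intro i _
      unfold val
      rw [h1 i]
      simp [Psi]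
    rw [h2, mul_zero]
    exact En_nonneg _ _
  | cons q ps ih =>
    intro D hD hpos hsep
    set Ω := Fintype.piFinset D with hΩ
    have hN : ∀ i, (0 : ℝ) < (D i).card := fun i => by exact_mod_cast card_pos.2 (hD i)
    have hne : ∀ w ∈ Ω, ∀ i ∈ (univ : Finset (Fin k)), w i ≠ 0 := by
      intro w hw i _
      exact (hpos i _ (Fintype.mem_piFinset.1 hw i)).ne'
    have hV : ∀ w ∈ Ω, ∑ i, (w i).factorization q = (∏ i, w i).factorization q := by
      intro w hw
      rw [Nat.factorization_prod (hne w hw), Finsupp.finsetSum_apply]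
    have hsplit := En_split (Ω := Ω) (fun y : Fin k → ℕ => ∏ i, y i)
      (fun y : Fin k → ℕ => fun i => (y i).factorization q)
      (fun y : Fin k → ℕ => ∑ i, (y i).factorization q)
      (by
        intro w hw w' hw' h
        rw [hV w hw, hV w' hw', h])
      (by
        intro w _ w' _ h
        exact sum_congr rfl fun i _ => congrFun h i)
    set c : (Fin k → ℕ) → (Fin k → ℕ) := fun y => fun i => (y i).factorization q with hc
    set C : ℝ := 2 * Real.log k + 7 with hC
    -- the classes
    have hcls : ∀ e, Ω.filter (fun w => c w = e) =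
        Fintype.piFinset (fun i => lev q (D i) (e i)) := by
      intro e
      ext w
      rw [mem_filter, Fintype.mem_piFinset, Fintype.mem_piFinset]
      unfold lev
      simp only [mem_filter]
      constructor
      · rintro ⟨h1, h2⟩ i
        exact ⟨h1 i, congrFun h2 i⟩
      · intro h
        exact ⟨fun i => (h i).1, funext fun i => (h i).2⟩
    have hih : ∀ e ∈ Ω.image c, ((Ω.filter (fun w => c w = e)).card : ℝ) *
        ∑ i, val C ps (lev q (D i) (e i)) ≤
          En (Ω.filter (fun w => c w = e)) (fun y => ∏ i, y i) := by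
      intro e he
      obtain ⟨w, hw, hwe⟩ := mem_image.1 he
      rw [hcls e]
      apply ih
      · intro i
        refine ⟨w i, ?_⟩
        unfold lev
        rw [mem_filter]
        exact ⟨Fintype.mem_piFinset.1 hw i, congrFun hwe i⟩
      · intro i y hy
        exact hpos i y (lev_subset _ _ _ hy)
      · intro i y hy y' hy' h
        apply hsep i y (lev_subset _ _ _ hy) y' (lev_subset _ _ _ hy')
        intro r hr
        rcases List.mem_cons.1 hr with rfl | hr
        · exact (mem_filter.1 hy).2.trans (mem_filter.1 hy').2.symm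
        · exact h r hr
    have hsum1 : ∑ w ∈ Ω, ∑ i, val C ps (lev q (D i) ((w i).factorization q)) ≤
        ∑ e ∈ Ω.image c, En (Ω.filter (fun w => c w = e)) (fun y => ∏ i, y i) := by
      rw [← sum_fiberwise_of_maps_to (fun w hw => mem_image_of_mem c hw)]
      apply sum_le_sum
      intro e he
      refine le_trans (le_of_eq ?_) (hih e he)
      rw [← nsmul_eq_mul, ← sum_const]
      apply sum_congr rfl
      intro w hw
      have hwe := (mem_filter.1 hw).2
      apply sum_congr rfl
      intro i _
      rw [← hwe]
    rw [sum_comm] at hsum1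
    have hsum2 : ∀ i, ∑ w ∈ Ω, val C ps (lev q (D i) ((w i).factorization q)) =
        (Ω.card : ℝ) * ((∑ z ∈ D i, val C ps (lev q (D i) (z.factorization q))) /
          (D i).card) := by
      intro i
      have h1 := pi_sum D i (fun z => val C ps (lev q (D i) (z.factorization q)))
      rw [← hΩ] at h1
      rw [mul_div_assoc', eq_div_iff (hN i).ne', mul_comm]
      exact h1
    have hsum3 : ∀ i, ∑ z ∈ D i, val C ps (lev q (D i) (z.factorization q)) =
        (D i).card * Real.log (D i).card -
          ∑ z ∈ D i, Real.log (((D i).card : ℝ) / (lev q (D i) (z.factorization q)).card) -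
          C * ∑ l ∈ (D i).image (fun y => y.factorization q), Psi ps (lev q (D i) l) := by
      intro i
      have h1 : ∑ z ∈ D i, Real.log ((lev q (D i) (z.factorization q)).card : ℝ) =
          (D i).card * Real.log (D i).card -
          ∑ z ∈ D i, Real.log (((D i).card : ℝ) / (lev q (D i) (z.factorization q)).card) := by
        rw [eq_sub_iff_add_eq, ← sum_add_distrib, ← nsmul_eq_mul, ← sum_const]
        apply sum_congr rfl
        intro z hz
        have p1 : (0 : ℝ) < (lev q (D i) (z.factorization q)).card := by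
          exact_mod_cast card_pos.2 ⟨z, mem_lev_self hz⟩
        rw [Real.log_div (hN i).ne' p1.ne']
        ring
      have h2 : ∑ z ∈ D i, (Psi ps (lev q (D i) (z.factorization q)) /
          (lev q (D i) (z.factorization q)).card) =
          ∑ l ∈ (D i).image (fun y => y.factorization q), Psi ps (lev q (D i) l) := by
        rw [← sum_fiberwise_of_maps_to (s := D i) (g := fun y => y.factorization q)
          (fun w hw => mem_image_of_mem _ hw)]
        apply sum_congr rfl
        intro l hl
        obtain ⟨y, hy, rfl⟩ := mem_image.1 hl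
        have h3 : ∀ z ∈ (D i).filter (fun z => z.factorization q = y.factorization q),
            Psi ps (lev q (D i) (z.factorization q)) /
              ((lev q (D i) (z.factorization q)).card : ℝ) =
            Psi ps (lev q (D i) (y.factorization q)) /
              ((lev q (D i) (y.factorization q)).card : ℝ) := by
          intro z hz
          rw [(mem_filter.1 hz).2]
        have p1 : ((lev q (D i) (y.factorization q)).card : ℝ) ≠ 0 := by
          exact_mod_cast (card_pos.2 ⟨y, mem_lev_self hy⟩).ne'
        rw [sum_congr rfl h3, sum_const, nsmul_eq_mul]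
        exact mul_div_cancel₀ _ p1
      unfold val
      rw [sum_sub_distrib, ← mul_sum, h1, h2]
    have hlem := prod_lemma hk q D hD
    rw [← hΩ] at hlem
    -- sum up
    rw [sum_congr rfl fun i _ => hsum2 i, ← mul_sum] at hsum1
    refine le_trans ?_ hsplit
    refine le_trans ?_ (add_le_add hlem hsum1)
    rw [← mul_add, ← sum_add_distrib]
    apply le_of_eq
    congr 1
    apply sum_congr rfl
    intro i _
    rw [hsum3 i]
    unfold val
    simp only [Psi]
    have := (hN i).ne'
    field_simp
    ring

theorem sum_mem_it {ι G : Type*} [AddCommGroup G] [DecidableEq G] (α : ι → G) (A : Finset ι)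
    (k : ℕ) : ∀ y : Fin k → ι, (∀ i, y i ∈ A) → ∑ i, α (y i) ∈ it α A k := by
  induction k with
  | zero =>
    intro y _
    simp [it]
  | succ k ih =>
    intro y hy
    rw [Fin.sum_univ_castSucc]
    unfold it
    exact mem_sset (ih (fun i => y i.castSucc) (fun i => hy _)) (hy _)

theorem be_prod {k : ℕ} (y : Fin k → ℕ) (hy : ∀ i, y i ≠ 0) : be (∏ i, y i) = ∑ i, be (y i) := by
  induction k with
  | zero => simp [be_one]
  | succ k ih =>
    rw [Fin.prod_univ_castSucc, Fin.sum_univ_castSucc,
      be_mul (prod_ne_zero_iff.2 fun i _ => hy _) (hy _), ih _ (fun i => hy _)]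

/-- products of `k` elements: the loss is at most `2 log k + 7` times the defect -/
theorem prod_side {k : ℕ} (hk : 2 ≤ k) {A : Finset ℕ} (hA : A.Nonempty) (hpos : ∀ y ∈ A, 0 < y)
    (ps : List ℕ) (hps : ∀ y ∈ A, ∀ y' ∈ A,
      (∀ q ∈ ps, y.factorization q = y'.factorization q) → y = y') :
    k * Real.log A.card - k * (2 * Real.log k + 7) * (Psi ps A / A.card) ≤
      Real.log (it be A k).card := by
  classical
  have hk1 : 1 ≤ k := by omega
  have h1 := prod_ind hk1 ps (fun _ : Fin k => A) (fun _ => hA) (fun _ => hpos) (fun _ => hps)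
  set Ω := Fintype.piFinset (fun _ : Fin k => A) with hΩ
  have hΩne : Ω.Nonempty := Fintype.piFinset_nonempty.2 fun _ => hA
  have hΩp : (0 : ℝ) < Ω.card := by exact_mod_cast card_pos.2 hΩne
  have h2 := En_le (f := fun y : Fin k → ℕ => ∏ i, y i) hΩne
    (S := Ω.image (fun y : Fin k → ℕ => ∏ i, y i)) (fun w hw => mem_image_of_mem _ hw)
  have h3 := le_of_mul_le_mul_left (h1.trans h2) hΩp
  have h4 : (Ω.image (fun y : Fin k → ℕ => ∏ i, y i)).card ≤ (it be A k).card := by
    apply card_le_card_of_injOn be
    · intro n hn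
      rw [mem_coe, mem_image] at hn
      obtain ⟨y, hy, rfl⟩ := hn
      have hy' := Fintype.mem_piFinset.1 hy
      rw [be_prod y (fun i => (hpos _ (hy' i)).ne')]
      exact mem_coe.2 (sum_mem_it be A k y hy')
    · intro n hn n' hn' h
      rw [mem_coe, mem_image] at hn hn'
      obtain ⟨y, hy, rfl⟩ := hn
      obtain ⟨y', hy', rfl⟩ := hn'
      apply be_inj _ _ h
      · exact prod_ne_zero_iff.2 fun i _ => (hpos _ (Fintype.mem_piFinset.1 hy i)).ne'
      · exact prod_ne_zero_iff.2 fun i _ => (hpos _ (Fintype.mem_piFinset.1 hy' i)).ne'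
  have h5 : (0 : ℝ) < (Ω.image (fun y : Fin k → ℕ => ∏ i, y i)).card := by
    exact_mod_cast card_pos.2 (hΩne.image _)
  have h6 := Real.log_le_log h5 (by exact_mod_cast h4 :
    ((Ω.image (fun y : Fin k → ℕ => ∏ i, y i)).card : ℝ) ≤ (it be A k).card)
  refine le_trans (le_of_eq ?_) (h3.trans h6)
  rw [sum_const, card_univ, Fintype.card_fin, nsmul_eq_mul]
  unfold val
  ring

end Pool.Agent.Helper80.LL
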