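import Mathlib

set_option autoImplicit false

/-!
MP_120218_co, Theorem LL: the multiplicative defect `Psi` of a finite set of positive integers.
-/

open Finset

namespace Pool.Agent.Helper80.LL

/-- the elements of `D` with `q`-adic valuation `l` -/
def lev (q : ℕ) (D : Finset ℕ) (l : ℕ) : Finset ℕ := D.filter (fun y => y.factorization q = l)

/-- the elements of `D` with `q`-adic valuation at least `l` -/
def upp (q : ℕ) (D : Finset ℕ) (l : ℕ) : Finset ℕ := D.filter (fun y => l ≤ y.factorization q)

/-- the defect of `D` at the prime `q` (unnormalised) -/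
noncomputable def Lq (q : ℕ) (D : Finset ℕ) : ℝ :=
  ∑ y ∈ D, Real.log ((upp q D (y.factorization q)).card / (lev q D (y.factorization q)).card)

/-- the defect of `D` along the list `ps` of primes (unnormalised) -/
noncomputable def Psi : List ℕ → Finset ℕ → ℝ
  | [], _ => 0
  | q :: ps, D => Lq q D + ∑ l ∈ D.image (fun y => y.factorization q), Psi ps (lev q D l)

theorem lev_subset (q : ℕ) (D : Finset ℕ) (l : ℕ) : lev q D l ⊆ D := filter_subset _ _

theorem lev_subset_upp (q : ℕ) (D : Finset ℕ) (l : ℕ) : lev q D l ⊆ upp q D l := by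
  intro y hy
  unfold lev at hy
  unfold upp
  rw [mem_filter] at hy ⊢
  exact ⟨hy.1, hy.2.ge⟩

theorem mem_lev_self {q : ℕ} {D : Finset ℕ} {y : ℕ} (hy : y ∈ D) :
    y ∈ lev q D (y.factorization q) := mem_filter.2 ⟨hy, rfl⟩

theorem Lq_nonneg (q : ℕ) (D : Finset ℕ) : 0 ≤ Lq q D := by
  unfold Lq
  apply sum_nonneg
  intro y hy
  have h1 : (0 : ℝ) < (lev q D (y.factorization q)).card := by
    exact_mod_cast card_pos.2 ⟨y, mem_lev_self hy⟩
  apply Real.log_nonneg
  rw [le_div_iff₀ h1, one_mul]
  exact_mod_cast card_le_card (lev_subset_upp q D _)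

theorem Psi_nonneg (ps : List ℕ) : ∀ D : Finset ℕ, 0 ≤ Psi ps D := by
  induction ps with
  | nil => intro D; exact le_rfl
  | cons q ps ih =>
    intro D
    unfold Psi
    exact add_nonneg (Lq_nonneg q D) (sum_nonneg fun l _ => ih _)

/-- a prime with constant valuation does not contribute -/
theorem Psi_const {q : ℕ} {ps : List ℕ} {D : Finset ℕ} {l : ℕ} (hne : D.Nonempty)
    (h : ∀ y ∈ D, y.factorization q = l) : Psi (q :: ps) D = Psi ps D := by
  have h1 : D.image (fun y => y.factorization q) = {l} := by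
    ext m
    simp only [mem_image, mem_singleton]
    constructor
    · rintro ⟨y, hy, rfl⟩; exact h y hy
    · rintro rfl
      obtain ⟨y, hy⟩ := hne
      exact ⟨y, hy, h y hy⟩
  have h2 : lev q D l = D := filter_true_of_mem h
  have h3 : Lq q D = 0 := by
    unfold Lq
    apply sum_eq_zero
    intro y hy
    rw [h y hy, h2]
    have h4 : upp q D l = D := filter_true_of_mem fun z hz => (h z hz).ge
    rw [h4]
    have h5 : (D.card : ℝ) ≠ 0 := by exact_mod_cast (card_pos.2 hne).ne'
    rw [div_self h5, Real.log_one]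
  simp only [Psi]
  rw [h1, sum_singleton, h2, h3, zero_add]

/-- the splitting by the smallest valuation -/
theorem Psi_split {q : ℕ} {ps : List ℕ} {D D₀ D₁ : Finset ℕ} {l : ℕ}
    (hl : ∀ y ∈ D, l ≤ y.factorization q)
    (h0 : D₀ = D.filter (fun y => y.factorization q = l))
    (h1 : D₁ = D.filter (fun y => l < y.factorization q)) (hne : D₀.Nonempty) :
    Psi (q :: ps) D = D₀.card * Real.log (D.card / D₀.card) + Psi ps D₀ + Psi (q :: ps) D₁ := by
  have hD : D = D₀ ∪ D₁ := by
    ext y
    rw [h0, h1, mem_union, mem_filter, mem_filter]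
    constructor
    · intro hy
      rcases (hl y hy).lt_or_eq with h | h
      · exact Or.inr ⟨hy, h⟩
      · exact Or.inl ⟨hy, h.symm⟩
    · rintro (h | h) <;> exact h.1
  have hdis : Disjoint D₀ D₁ := by
    rw [disjoint_left]
    intro y hy0 hy1
    rw [h0, mem_filter] at hy0
    rw [h1, mem_filter] at hy1
    omega
  have v0 : ∀ y ∈ D₀, y.factorization q = l := fun y hy => by
    rw [h0, mem_filter] at hy; exact hy.2
  have v1 : ∀ y ∈ D₁, l < y.factorization q := fun y hy => by
    rw [h1, mem_filter] at hy; exact hy.2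
  have lev0 : lev q D l = D₀ := h0.symm
  have upp0 : upp q D l = D := filter_true_of_mem hl
  have lev1 : ∀ m, l < m → lev q D m = lev q D₁ m := by
    intro m hm
    ext y
    unfold lev
    rw [mem_filter, mem_filter]
    constructor
    · rintro ⟨hy, rfl⟩
      exact ⟨by rw [h1, mem_filter]; exact ⟨hy, hm⟩, rfl⟩
    · rintro ⟨hy, rfl⟩
      rw [h1, mem_filter] at hy
      exact ⟨hy.1, rfl⟩
  have upp1 : ∀ m, l < m → upp q D m = upp q D₁ m := by
    intro m hm
    ext y
    unfold upp
    rw [mem_filter, mem_filter]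
    constructor
    · rintro ⟨hy, hm'⟩
      exact ⟨by rw [h1, mem_filter]; exact ⟨hy, by omega⟩, hm'⟩
    · rintro ⟨hy, hm'⟩
      rw [h1, mem_filter] at hy
      exact ⟨hy.1, hm'⟩
  have hL : Lq q D = D₀.card * Real.log (D.card / D₀.card) + Lq q D₁ := by
    unfold Lq
    have e0 : ∑ y ∈ D₀, Real.log (((upp q D (y.factorization q)).card : ℝ) /
        (lev q D (y.factorization q)).card) = D₀.card * Real.log (D.card / D₀.card) := by
      rw [← nsmul_eq_mul, ← sum_const]
      apply sum_congr rfl
      intro y hy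
      rw [v0 y hy, lev0, upp0]
    have e1 : ∑ y ∈ D₁, Real.log (((upp q D (y.factorization q)).card : ℝ) /
        (lev q D (y.factorization q)).card) =
        ∑ y ∈ D₁, Real.log (((upp q D₁ (y.factorization q)).card : ℝ) /
        (lev q D₁ (y.factorization q)).card) := by
      apply sum_congr rfl
      intro y hy
      rw [lev1 _ (v1 y hy), upp1 _ (v1 y hy)]
    rw [← e0, ← e1, ← sum_union hdis, ← hD]
  have hI : D.image (fun y => y.factorization q) =
      insert l (D₁.image (fun y => y.factorization q)) := by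
    ext m
    rw [mem_insert, mem_image, mem_image]
    constructor
    · rintro ⟨y, hy, rfl⟩
      rw [hD, mem_union] at hy
      rcases hy with hy | hy
      · exact Or.inl (v0 y hy)
      · exact Or.inr ⟨y, hy, rfl⟩
    · rintro (rfl | ⟨y, hy, rfl⟩)
      · obtain ⟨y, hy⟩ := hne
        exact ⟨y, by rw [hD]; exact mem_union_left _ hy, v0 y hy⟩
      · exact ⟨y, by rw [hD]; exact mem_union_right _ hy, rfl⟩
  have hnm : l ∉ D₁.image (fun y => y.factorization q) := by
    rw [mem_image]
    rintro ⟨y, hy, h⟩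
    have := v1 y hy
    omega
  simp only [Psi]
  rw [hI, sum_insert hnm, lev0, hL]
  have e2 : ∑ m ∈ D₁.image (fun y => y.factorization q), Psi ps (lev q D m) =
      ∑ m ∈ D₁.image (fun y => y.factorization q), Psi ps (lev q D₁ m) := by
    apply sum_congr rfl
    intro m hm
    obtain ⟨y, hy, rfl⟩ := mem_image.1 hm
    rw [lev1 _ (v1 y hy)]
  rw [e2]
  ring

end Pool.Agent.Helper80.LL
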