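import Mathlib

set_option autoImplicit false

/-!
MP_120218_co, theorem LL: (unnormalised) entropy of a function on a finite set.
-/

open Finset

namespace Pool.Agent.Helper80.LL

variable {α β γ δ : Type*} [DecidableEq β] [DecidableEq γ] [DecidableEq δ]

/-- size of the fibre of `f` through `w` -/
def fib (Ω : Finset α) (f : α → β) (w : α) : ℕ := (Ω.filter (fun w' => f w' = f w)).card

/-- the unnormalised entropy of `f` on `Ω` -/
noncomputable def En (Ω : Finset α) (f : α → β) : ℝ :=
  ∑ w ∈ Ω, Real.log ((Ω.card : ℝ) / (fib Ω f w : ℝ))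

theorem fib_pos {Ω : Finset α} {f : α → β} {w : α} (hw : w ∈ Ω) : 0 < fib Ω f w :=
  card_pos.2 ⟨w, mem_filter.2 ⟨hw, rfl⟩⟩

theorem fib_le (Ω : Finset α) (f : α → β) (w : α) : fib Ω f w ≤ Ω.card :=
  card_le_card (filter_subset _ _)

theorem fib_congr {Ω : Finset α} {f : α → β} {w w' : α} (h : f w = f w') :
    fib Ω f w = fib Ω f w' := by
  unfold fib
  rw [h]

theorem log_fib_nonneg {Ω : Finset α} {f : α → β} {w : α} (hw : w ∈ Ω) :
    0 ≤ Real.log ((Ω.card : ℝ) / (fib Ω f w : ℝ)) := by
  apply Real.log_nonneg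
  rw [le_div_iff₀ (by exact_mod_cast fib_pos hw), one_mul]
  exact_mod_cast fib_le Ω f w

theorem En_nonneg (Ω : Finset α) (f : α → β) : 0 ≤ En Ω f :=
  sum_nonneg fun _ hw => log_fib_nonneg hw

/-- the entropy is at most the logarithm of the number of values -/
theorem En_le {Ω : Finset α} {f : α → β} {S : Finset β} (hΩ : Ω.Nonempty)
    (hS : ∀ w ∈ Ω, f w ∈ S) : En Ω f ≤ Ω.card * Real.log S.card := by
  have hΩp : (0 : ℝ) < Ω.card := by exact_mod_cast card_pos.2 hΩ
  have hSne : S.Nonempty := by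
    obtain ⟨w, hw⟩ := hΩ
    exact ⟨f w, hS w hw⟩
  have hSp : (0 : ℝ) < S.card := by exact_mod_cast card_pos.2 hSne
  have h1 : ∀ w ∈ Ω, Real.log ((Ω.card : ℝ) / (fib Ω f w : ℝ)) ≤
      Real.log S.card - 1 + (Ω.card / S.card) * (1 / (fib Ω f w : ℝ)) := by
    intro w hw
    have hr : (0 : ℝ) < fib Ω f w := by exact_mod_cast fib_pos hw
    have h2 := Real.log_le_sub_one_of_pos
      (show 0 < (Ω.card / S.card : ℝ) * (1 / (fib Ω f w : ℝ)) by positivity)
    have h3 : Real.log ((Ω.card / S.card : ℝ) * (1 / (fib Ω f w : ℝ))) =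
        Real.log ((Ω.card : ℝ) / (fib Ω f w : ℝ)) - Real.log S.card := by
      rw [Real.log_mul (by positivity) (by positivity), Real.log_div hΩp.ne' hSp.ne',
        Real.log_div hΩp.ne' hr.ne', one_div, Real.log_inv]
      ring
    linarith
  have h4 : ∑ w ∈ Ω, (1 / (fib Ω f w : ℝ)) ≤ S.card := by
    rw [← sum_fiberwise_of_maps_to hS]
    calc ∑ b ∈ S, ∑ w ∈ Ω with f w = b, (1 / (fib Ω f w : ℝ)) ≤ ∑ b ∈ S, (1 : ℝ) := by
          apply sum_le_sum
          intro b _
          have h5 : ∀ w ∈ Ω.filter (fun w => f w = b), (1 / (fib Ω f w : ℝ)) =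
              1 / ((Ω.filter (fun w => f w = b)).card : ℝ) := by
            intro w hw
            unfold fib
            rw [(mem_filter.1 hw).2]
          rw [sum_congr rfl h5, sum_const, nsmul_eq_mul]
          rcases eq_or_ne (((Ω.filter (fun w => f w = b)).card : ℝ)) 0 with h | h
          · rw [h]; norm_num
          · rw [mul_one_div_cancel h]
      _ = S.card := by rw [sum_const, nsmul_eq_mul, mul_one]
  unfold En
  calc ∑ w ∈ Ω, Real.log ((Ω.card : ℝ) / (fib Ω f w : ℝ))
      ≤ ∑ w ∈ Ω, (Real.log S.card - 1 + (Ω.card / S.card) * (1 / (fib Ω f w : ℝ))) :=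
        sum_le_sum h1
    _ = Ω.card * (Real.log S.card - 1) + (Ω.card / S.card) * ∑ w ∈ Ω, (1 / (fib Ω f w : ℝ)) := by
        rw [sum_add_distrib, sum_const, nsmul_eq_mul, ← mul_sum]
    _ ≤ Ω.card * (Real.log S.card - 1) + (Ω.card / S.card) * S.card := by
        apply add_le_add le_rfl
        exact mul_le_mul_of_nonneg_left h4 (by positivity)
    _ = Ω.card * Real.log S.card := by
        rw [div_mul_cancel₀ _ hSp.ne']
        ring

/-- a test: `P` is a union of fibres -/
theorem En_ge {Ω P : Finset α} {f : α → β} (hP : P ⊆ Ω)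
    (hfib : ∀ w ∈ P, ∀ w' ∈ Ω, f w' = f w → w' ∈ P) :
    P.card * Real.log (Ω.card / P.card) ≤ En Ω f := by
  unfold En
  have h1 : ∑ w ∈ P, Real.log ((Ω.card : ℝ) / (fib Ω f w : ℝ)) ≤
      ∑ w ∈ Ω, Real.log ((Ω.card : ℝ) / (fib Ω f w : ℝ)) :=
    sum_le_sum_of_subset_of_nonneg hP fun w hw _ => log_fib_nonneg hw
  refine le_trans ?_ h1
  rw [← nsmul_eq_mul, ← sum_const]
  apply sum_le_sum
  intro w hw
  have hPp : (0 : ℝ) < P.card := by exact_mod_cast card_pos.2 ⟨w, hw⟩
  have hΩp : (0 : ℝ) < Ω.card := by exact_mod_cast card_pos.2 ⟨w, hP hw⟩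
  have hr : (0 : ℝ) < fib Ω f w := by exact_mod_cast fib_pos (hP hw)
  apply Real.log_le_log (by positivity)
  apply div_le_div_of_nonneg_left hΩp.le hr
  have h2 : fib Ω f w ≤ P.card := by
    apply card_le_card
    intro w' hw'
    rw [mem_filter] at hw'
    exact hfib w hw w' hw'.1 hw'.2
  exact_mod_cast h2

/-- Chain rule: `V` is a function of `f` and a function of the class `c`. -/
theorem En_split [DecidableEq α] {Ω : Finset α} (f : α → β) (c : α → γ) (V : α → δ)
    (hf : ∀ w ∈ Ω, ∀ w' ∈ Ω, f w = f w' → V w = V w')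
    (hc : ∀ w ∈ Ω, ∀ w' ∈ Ω, c w = c w' → V w = V w') :
    En Ω V + ∑ e ∈ Ω.image c, En (Ω.filter (fun w => c w = e)) f ≤ En Ω f := by
  -- the number of `w'` with the same class and the same value of `f`
  set Rc : α → ℕ := fun w => (Ω.filter (fun w' => f w' = f w ∧ c w' = c w)).card with hRc
  have hRcp : ∀ w ∈ Ω, (0 : ℝ) < Rc w := by
    intro w hw
    have h : 0 < Rc w := card_pos.2 ⟨w, mem_filter.2 ⟨hw, rfl, rfl⟩⟩
    exact_mod_cast h
  have e1 : ∑ e ∈ Ω.image c, En (Ω.filter (fun w => c w = e)) f =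
      ∑ w ∈ Ω, Real.log ((fib Ω c w : ℝ) / Rc w) := by
    rw [← sum_fiberwise_of_maps_to (fun w hw => mem_image_of_mem c hw)]
    apply sum_congr rfl
    intro e _
    unfold En
    apply sum_congr rfl
    intro w hw
    have hwe := (mem_filter.1 hw).2
    have h1 : fib Ω c w = (Ω.filter (fun w => c w = e)).card := by
      unfold fib
      rw [hwe]
    have h2 : fib (Ω.filter (fun w => c w = e)) f w = Rc w := by
      unfold fib
      rw [hRc]
      simp only
      congr 1
      rw [filter_filter]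
      ext w'
      simp only [mem_filter]
      rw [hwe]
      tauto
    rw [h1, h2]
  have key : ∑ w ∈ Ω, ((fib Ω f w : ℝ) * fib Ω c w / (fib Ω V w * Rc w)) ≤ Ω.card := by
    have t1 : ∀ w ∈ Ω, ((fib Ω f w : ℝ) * fib Ω c w / (fib Ω V w * Rc w)) =
        ∑ w' ∈ Ω, ∑ w'' ∈ Ω, (if f w' = f w ∧ c w'' = c w then
          1 / ((fib Ω V w : ℝ) * Rc w) else 0) := by
      intro w _
      have h3 : ∀ w' ∈ Ω, ∑ w'' ∈ Ω, (if f w' = f w ∧ c w'' = c w then
          1 / ((fib Ω V w : ℝ) * Rc w) else 0) =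
          if f w' = f w then (fib Ω c w : ℝ) * (1 / ((fib Ω V w : ℝ) * Rc w)) else 0 := by
        intro w' _
        split_ifs with h
        · simp only [h, true_and]
          rw [← sum_filter, sum_const, nsmul_eq_mul]
          rfl
        · simp [h]
      rw [sum_congr rfl h3, ← sum_filter, sum_const, nsmul_eq_mul]
      unfold fib
      ring
    rw [sum_congr rfl t1, sum_comm]
    have t2 : ∀ w' ∈ Ω, ∑ w ∈ Ω, ∑ w'' ∈ Ω, (if f w' = f w ∧ c w'' = c w then
          1 / ((fib Ω V w : ℝ) * Rc w) else 0) ≤ 1 := by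
      intro w' hw'
      rw [sum_comm]
      have hVp : (0 : ℝ) < fib Ω V w' := by exact_mod_cast fib_pos hw'
      calc ∑ w'' ∈ Ω, ∑ w ∈ Ω, (if f w' = f w ∧ c w'' = c w then
          1 / ((fib Ω V w : ℝ) * Rc w) else 0)
          ≤ ∑ w'' ∈ Ω, (if V w'' = V w' then 1 / (fib Ω V w' : ℝ) else 0) := by
            apply sum_le_sum
            intro w'' hw''
            rw [← sum_filter]
            rcases (Ω.filter (fun w => f w' = f w ∧ c w'' = c w)).eq_empty_or_nonempty with h | h
            · rw [h, sum_empty]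
              split_ifs
              · positivity
              · exact le_rfl
            · obtain ⟨w0, hw0⟩ := h
              rw [mem_filter] at hw0
              have v1 : V w' = V w0 := hf w' hw' w0 hw0.1 hw0.2.1
              have v2 : V w'' = V w0 := hc w'' hw'' w0 hw0.1 hw0.2.2
              rw [if_pos (v2.trans v1.symm)]
              have h5 : ∀ w ∈ Ω.filter (fun w => f w' = f w ∧ c w'' = c w),
                  1 / ((fib Ω V w : ℝ) * Rc w) = 1 / ((fib Ω V w' : ℝ) *
                    ((Ω.filter (fun w => f w' = f w ∧ c w'' = c w)).card : ℝ)) := by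
                intro w hw
                rw [mem_filter] at hw
                have v3 : fib Ω V w = fib Ω V w' :=
                  fib_congr (hf w' hw' w hw.1 hw.2.1).symm
                have v4 : Rc w = (Ω.filter (fun w => f w' = f w ∧ c w'' = c w)).card := by
                  rw [hRc]
                  simp only
                  congr 1
                  apply filter_congr
                  intro z _
                  rw [hw.2.1, hw.2.2]
                  exact ⟨fun h => ⟨h.1.symm, h.2.symm⟩, fun h => ⟨h.1.symm, h.2.symm⟩⟩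
                rw [v3, v4]
              rw [sum_congr rfl h5, sum_const, nsmul_eq_mul]
              have h6 : (0 : ℝ) < ((Ω.filter (fun w => f w' = f w ∧ c w'' = c w)).card : ℝ) := by
                exact_mod_cast card_pos.2 ⟨w0, mem_filter.2 hw0⟩
              apply le_of_eq
              field_simp
        _ = 1 := by
            rw [← sum_filter, sum_const, nsmul_eq_mul]
            unfold fib
            rw [mul_one_div_cancel]
            exact hVp.ne'
    calc _ ≤ ∑ w' ∈ Ω, (1 : ℝ) := sum_le_sum t2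
      _ = Ω.card := by rw [sum_const, nsmul_eq_mul, mul_one]
  have hterm : ∀ w ∈ Ω, Real.log ((Ω.card : ℝ) / (fib Ω V w : ℝ)) +
      Real.log ((fib Ω c w : ℝ) / Rc w) -
        ((fib Ω f w : ℝ) * fib Ω c w / (fib Ω V w * Rc w) - 1) ≤
      Real.log ((Ω.card : ℝ) / (fib Ω f w : ℝ)) := by
    intro w hw
    have p0 : (0 : ℝ) < Ω.card := by exact_mod_cast card_pos.2 ⟨w, hw⟩
    have p1 : (0 : ℝ) < fib Ω f w := by exact_mod_cast fib_pos hw
    have p2 : (0 : ℝ) < fib Ω c w := by exact_mod_cast fib_pos hw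
    have p3 : (0 : ℝ) < fib Ω V w := by exact_mod_cast fib_pos hw
    have p4 := hRcp w hw
    have h6 := Real.log_le_sub_one_of_pos
      (show 0 < (fib Ω f w : ℝ) * fib Ω c w / (fib Ω V w * Rc w) by positivity)
    rw [Real.log_div (by positivity) (by positivity), Real.log_mul p1.ne' p2.ne',
      Real.log_mul p3.ne' p4.ne'] at h6
    rw [Real.log_div p0.ne' p3.ne', Real.log_div p2.ne' p4.ne', Real.log_div p0.ne' p1.ne']
    linarith
  have hsum := sum_le_sum hterm
  simp_rw [sum_sub_distrib, sum_add_distrib] at hsum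
  rw [e1]
  have h7 : ∑ _w ∈ Ω, (1 : ℝ) = Ω.card := by rw [sum_const, nsmul_eq_mul, mul_one]
  rw [h7] at hsum
  unfold En
  linarith

end Pool.Agent.Helper80.LL
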