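import Pool.Agent.Helper80.LL.Defs

set_option autoImplicit false

/-!
MP_120218_co, theorem LL: one valuation; the defect controls the entropy outside the main level.
-/

open Finset

namespace Pool.Agent.Helper80.LL

theorem mul_log_div_le {x y : ℝ} (hx : 0 ≤ x) (hxy : x ≤ y) :
    x * Real.log (y / x) ≤ y - x := by
  rcases hx.eq_or_lt with h | h
  · rw [← h]; simpa using hx.trans hxy
  · have hy : 0 < y := by linarith
    have h1 := Real.log_le_sub_one_of_pos (div_pos hy h)
    have h2 := mul_le_mul_of_nonneg_left h1 hx
    have h3 : x * (y / x - 1) = y - x := by field_simp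
    linarith

theorem card_upp_succ (q : ℕ) (D : Finset ℕ) (m : ℕ) :
    (upp q D m).card = (lev q D m).card + (upp q D (m + 1)).card := by
  unfold upp lev
  rw [← card_union_of_disjoint]
  · congr 1
    ext y
    simp only [mem_filter, mem_union]
    constructor
    · rintro ⟨hy, h⟩
      rcases h.lt_or_eq with h | h
      · exact Or.inr ⟨hy, h⟩
      · exact Or.inl ⟨hy, h.symm⟩
    · rintro (⟨hy, h⟩ | ⟨hy, h⟩)
      · exact ⟨hy, h.ge⟩
      · exact ⟨hy, by omega⟩
  · rw [disjoint_left]
    intro y h1 h2
    rw [mem_filter] at h1 h2
    omega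

theorem card_split (q : ℕ) (D : Finset ℕ) (m : ℕ) :
    D.card = (D.filter (fun y => y.factorization q < m)).card + (upp q D m).card := by
  unfold upp
  rw [← card_union_of_disjoint]
  · congr 1
    ext y
    simp only [mem_filter, mem_union]
    constructor
    · intro hy
      rcases lt_or_ge (y.factorization q) m with h | h
      · exact Or.inl ⟨hy, h⟩
      · exact Or.inr ⟨hy, h⟩
    · rintro (⟨hy, h⟩ | ⟨hy, h⟩) <;> exact hy
  · rw [disjoint_left]
    intro y h1 h2
    rw [mem_filter] at h1 h2
    omega

/-- telescoping bound for the levels below `m` -/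
theorem upp_sum (q : ℕ) (D : Finset ℕ) (m : ℕ) :
    ∑ y ∈ D with y.factorization q < m, Real.log ((D.card : ℝ) / (upp q D (y.factorization q)).card)
      ≤ ((D.card : ℝ) - (upp q D m).card) -
        (upp q D m).card * Real.log (D.card / (upp q D m).card) := by
  induction m with
  | zero =>
    have h0 : upp q D 0 = D := filter_true_of_mem fun y _ => Nat.zero_le _
    have h1 : D.filter (fun y => y.factorization q < 0) = ∅ := by
      apply filter_false_of_mem
      intro y _
      omega
    rw [h0, h1, sum_empty]
    rcases eq_or_ne (D.card : ℝ) 0 with h | h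
    · rw [h]; simp
    · rw [div_self h]; simp
  | succ m ih =>
    have hs : D.filter (fun y => y.factorization q < m + 1) =
        D.filter (fun y => y.factorization q < m) ∪ lev q D m := by
      unfold lev
      ext y
      simp only [mem_filter, mem_union]
      constructor
      · rintro ⟨hy, h⟩
        rcases (Nat.lt_succ_iff.1 h).lt_or_eq with h | h
        · exact Or.inl ⟨hy, h⟩
        · exact Or.inr ⟨hy, h⟩
      · rintro (⟨hy, h⟩ | ⟨hy, h⟩)
        · exact ⟨hy, by omega⟩
        · exact ⟨hy, by omega⟩
    have hd : Disjoint (D.filter (fun y => y.factorization q < m)) (lev q D m) := by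
      unfold lev
      rw [disjoint_left]
      intro y h1 h2
      rw [mem_filter] at h1 h2
      omega
    have hlev : ∑ y ∈ lev q D m, Real.log ((D.card : ℝ) / (upp q D (y.factorization q)).card) =
        (lev q D m).card * Real.log ((D.card : ℝ) / (upp q D m).card) := by
      rw [← nsmul_eq_mul, ← sum_const]
      apply sum_congr rfl
      intro y hy
      unfold lev at hy
      rw [(mem_filter.1 hy).2]
    rw [hs, sum_union hd, hlev]
    have hc : ((upp q D m).card : ℝ) = (lev q D m).card + (upp q D (m + 1)).card := by
      exact_mod_cast card_upp_succ q D m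
    set P : ℝ := ((upp q D m).card : ℝ) with hP
    set P' : ℝ := ((upp q D (m + 1)).card : ℝ) with hP'
    have hP'0 : 0 ≤ P' := by positivity
    have hPP : P' ≤ P := by rw [hc]; linarith [(by positivity : (0 : ℝ) ≤ (lev q D m).card)]
    have hl : ((lev q D m).card : ℝ) = P - P' := by linarith
    rw [hl]
    have h1 := mul_log_div_le hP'0 hPP
    rcases hP'0.eq_or_lt with h | h
    · rw [← h] at h1 ⊢
      simp only [zero_mul, sub_zero] at h1 ⊢
      linarith
    · have hPp : 0 < P := by linarith
      have hNp : (0 : ℝ) < D.card := by
        have h2 : P ≤ D.card := by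
          rw [hP]
          exact_mod_cast card_le_card (filter_subset _ _)
        linarith
      rw [Real.log_div hPp.ne' h.ne'] at h1
      rw [Real.log_div hNp.ne' hPp.ne'] at ih
      rw [Real.log_div hNp.ne' hPp.ne', Real.log_div hNp.ne' h.ne']
      nlinarith

/-- all levels -/
theorem upp_sum_all (q : ℕ) (D : Finset ℕ) :
    ∑ y ∈ D, Real.log ((D.card : ℝ) / (upp q D (y.factorization q)).card) ≤ D.card := by
  have h := upp_sum q D (D.sup (fun y => y.factorization q) + 1)
  have h1 : D.filter (fun y => y.factorization q < D.sup (fun y => y.factorization q) + 1) = D := by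
    apply filter_true_of_mem
    intro y hy
    exact Nat.lt_succ_of_le (le_sup (f := fun y => y.factorization q) hy)
  have h2 : upp q D (D.sup (fun y => y.factorization q) + 1) = ∅ := by
    apply filter_false_of_mem
    intro y hy
    have := le_sup (f := fun y => y.factorization q) hy
    omega
  rw [h1, h2] at h
  simpa using h

/-- the first level which contains at least half of what is left -/
theorem exists_level {q : ℕ} {D : Finset ℕ} :
    ∃ l : ℕ, (upp q D l).card ≤ 2 * (lev q D l).card ∧
      ∀ m < l, 2 * (lev q D m).card < (upp q D m).card := by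
  classical
  have hex : ∃ l : ℕ, (upp q D l).card ≤ 2 * (lev q D l).card := by
    refine ⟨D.sup (fun y => y.factorization q), ?_⟩
    have h1 : upp q D (D.sup (fun y => y.factorization q)) ⊆
        lev q D (D.sup (fun y => y.factorization q)) := by
      intro y hy
      unfold upp at hy
      unfold lev
      rw [mem_filter] at hy ⊢
      refine ⟨hy.1, le_antisymm (le_sup (f := fun y => y.factorization q) hy.1) hy.2⟩
    have := card_le_card h1
    omega
  refine ⟨Nat.find hex, Nat.find_spec hex, ?_⟩
  intro m hm
  have := Nat.find_min hex hm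
  omega

/-- the defect is at least half the mass outside the main level -/
theorem Lq_ge {q : ℕ} {D : Finset ℕ} {l : ℕ} (h1 : (upp q D l).card ≤ 2 * (lev q D l).card)
    (h2 : ∀ m < l, 2 * (lev q D m).card < (upp q D m).card) :
    (((D.filter (fun y => y.factorization q < l)).card : ℝ) + (upp q D (l + 1)).card) / 2 ≤
      Lq q D := by
  set D1 := D.filter (fun y => y.factorization q < l) with hD1
  have hdis : Disjoint D1 (lev q D l) := by
    unfold lev
    rw [disjoint_left]
    intro y h1 h2
    rw [hD1, mem_filter] at h1
    rw [mem_filter] at h2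
    omega
  have hsub : D1 ∪ lev q D l ⊆ D := union_subset (filter_subset _ _) (filter_subset _ _)
  have hnn : ∀ y ∈ D, 0 ≤ Real.log (((upp q D (y.factorization q)).card : ℝ) /
      (lev q D (y.factorization q)).card) := by
    intro y hy
    have h1 : (0 : ℝ) < (lev q D (y.factorization q)).card := by
      exact_mod_cast card_pos.2 ⟨y, mem_lev_self hy⟩
    apply Real.log_nonneg
    rw [le_div_iff₀ h1, one_mul]
    exact_mod_cast card_le_card (lev_subset_upp q D _)
  have hle : ∑ y ∈ D1 ∪ lev q D l, Real.log (((upp q D (y.factorization q)).card : ℝ) /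
      (lev q D (y.factorization q)).card) ≤ Lq q D := by
    unfold Lq
    exact sum_le_sum_of_subset_of_nonneg hsub fun y hy _ => hnn y hy
  rw [sum_union hdis] at hle
  have hA : (D1.card : ℝ) / 2 ≤ ∑ y ∈ D1, Real.log (((upp q D (y.factorization q)).card : ℝ) /
      (lev q D (y.factorization q)).card) := by
    have h3 : ∑ y ∈ D1, (1 / 2 : ℝ) = (D1.card : ℝ) / 2 := by
      rw [sum_const, nsmul_eq_mul]; ring
    rw [← h3]
    apply sum_le_sum
    intro y hy
    rw [hD1, mem_filter] at hy
    have h4 : (0 : ℝ) < (lev q D (y.factorization q)).card := by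
      exact_mod_cast card_pos.2 ⟨y, mem_lev_self hy.1⟩
    have h5 : (2 : ℝ) * (lev q D (y.factorization q)).card ≤
        (upp q D (y.factorization q)).card := by
      exact_mod_cast (h2 _ hy.2).le
    have h6 : (1 / 2 : ℝ) ≤ Real.log 2 := by
      have := Real.log_two_gt_d9
      linarith
    refine h6.trans (Real.log_le_log (by norm_num) ?_)
    rwa [le_div_iff₀ h4]
  have hB : ((upp q D (l + 1)).card : ℝ) / 2 ≤
      ∑ y ∈ lev q D l, Real.log (((upp q D (y.factorization q)).card : ℝ) /
      (lev q D (y.factorization q)).card) := by
    have h3 : ∑ y ∈ lev q D l, Real.log (((upp q D (y.factorization q)).card : ℝ) /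
        (lev q D (y.factorization q)).card) =
        (lev q D l).card * Real.log (((upp q D l).card : ℝ) / (lev q D l).card) := by
      rw [← nsmul_eq_mul, ← sum_const]
      apply sum_congr rfl
      intro y hy
      unfold lev at hy
      rw [(mem_filter.1 hy).2]
    rw [h3]
    have hc : ((upp q D l).card : ℝ) = (lev q D l).card + (upp q D (l + 1)).card := by
      exact_mod_cast card_upp_succ q D l
    have h1' : ((upp q D l).card : ℝ) ≤ 2 * (lev q D l).card := by exact_mod_cast h1
    set u : ℝ := ((upp q D l).card : ℝ) with hu
    set v : ℝ := ((lev q D l).card : ℝ) with hv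
    set B : ℝ := ((upp q D (l + 1)).card : ℝ) with hBdef
    have hB0 : 0 ≤ B := by positivity
    have hv0 : 0 ≤ v := by positivity
    rcases hv0.eq_or_lt with h | h
    · rw [← h] at h1' hc ⊢
      have : B = 0 := by linarith
      rw [this]; simp
    · have hu0 : 0 < u := by linarith
      have h4 := Real.one_sub_inv_le_log_of_pos (div_pos hu0 h)
      rw [inv_div] at h4
      have h5 : v * (1 - v / u) ≤ v * Real.log (u / v) := mul_le_mul_of_nonneg_left h4 hv0
      refine le_trans ?_ h5
      have h6 : v * (1 - v / u) = v * B / u := by
        have : B = u - v := by linarith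
        rw [this]
        field_simp
      rw [h6, le_div_iff₀ hu0]
      nlinarith
  linarith

/-- the entropy of the valuation outside the main level -/
theorem H_le {q : ℕ} {D : Finset ℕ} (hD : D.Nonempty) (l : ℕ) :
    ∑ y ∈ D, Real.log ((D.card : ℝ) / (lev q D (y.factorization q)).card) ≤
      Lq q D + (D.filter (fun y => y.factorization q < l)).card + (upp q D (l + 1)).card +
        (upp q D (l + 1)).card * Real.log (D.card / (upp q D (l + 1)).card) := by
  have hNp : (0 : ℝ) < D.card := by exact_mod_cast card_pos.2 hD
  set g : ℕ → ℝ := fun y => Real.log ((D.card : ℝ) / (upp q D (y.factorization q)).card) with hg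
  have e1 : ∑ y ∈ D, Real.log ((D.card : ℝ) / (lev q D (y.factorization q)).card) =
      Lq q D + ∑ y ∈ D, g y := by
    unfold Lq
    rw [← sum_add_distrib]
    apply sum_congr rfl
    intro y hy
    have p1 : (0 : ℝ) < (lev q D (y.factorization q)).card := by
      exact_mod_cast card_pos.2 ⟨y, mem_lev_self hy⟩
    have p2 : (0 : ℝ) < (upp q D (y.factorization q)).card := by
      exact_mod_cast card_pos.2 ⟨y, lev_subset_upp q D _ (mem_lev_self hy)⟩
    rw [hg]
    simp only
    rw [Real.log_div hNp.ne' p1.ne', Real.log_div p2.ne' p1.ne', Real.log_div hNp.ne' p2.ne']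
    ring
  rw [e1]
  -- three parts
  have hsplit : ∑ y ∈ D, g y = ∑ y ∈ D with y.factorization q < l, g y +
      ∑ y ∈ lev q D l, g y + ∑ y ∈ upp q D (l + 1), g y := by
    have hs : D = (D.filter (fun y => y.factorization q < l) ∪ lev q D l) ∪ upp q D (l + 1) := by
      ext y
      unfold lev upp
      simp only [mem_filter, mem_union]
      constructor
      · intro hy
        rcases lt_trichotomy (y.factorization q) l with h | h | h
        · exact Or.inl (Or.inl ⟨hy, h⟩)
        · exact Or.inl (Or.inr ⟨hy, h⟩)
        · exact Or.inr ⟨hy, h⟩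
      · rintro ((h | h) | h) <;> exact h.1
    have hd1 : Disjoint (D.filter (fun y => y.factorization q < l)) (lev q D l) := by
      unfold lev
      rw [disjoint_left]
      intro y h1 h2
      rw [mem_filter] at h1 h2
      omega
    have hd2 : Disjoint (D.filter (fun y => y.factorization q < l) ∪ lev q D l)
        (upp q D (l + 1)) := by
      unfold lev upp
      rw [disjoint_left]
      intro y h1 h2
      rw [mem_union, mem_filter, mem_filter] at h1
      rw [mem_filter] at h2
      omega
    conv_lhs => rw [hs]
    rw [sum_union hd2, sum_union hd1]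
  have h3 : ∑ y ∈ lev q D l, g y = (lev q D l).card * Real.log (D.card / (upp q D l).card) := by
    rw [← nsmul_eq_mul, ← sum_const]
    apply sum_congr rfl
    intro y hy
    unfold lev at hy
    rw [hg]
    simp only
    rw [(mem_filter.1 hy).2]
  have h4 := upp_sum q D l
  have hc : ((upp q D l).card : ℝ) = (lev q D l).card + (upp q D (l + 1)).card := by
    exact_mod_cast card_upp_succ q D l
  have hcard : (D.card : ℝ) = (D.filter (fun y => y.factorization q < l)).card +
      (upp q D l).card := by exact_mod_cast card_split q D l
  have hlog0 : 0 ≤ Real.log (D.card / (upp q D l).card) := by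
    rcases Nat.eq_zero_or_pos (upp q D l).card with h | h
    · rw [h]; simp
    · have h' : (0 : ℝ) < (upp q D l).card := by exact_mod_cast h
      apply Real.log_nonneg
      rw [le_div_iff₀ h', one_mul]
      exact_mod_cast card_le_card (filter_subset _ _)
  have hB0 : (0 : ℝ) ≤ (upp q D (l + 1)).card := by positivity
  have h5 : ∑ y ∈ D with y.factorization q < l, g y + ∑ y ∈ lev q D l, g y ≤
      (D.filter (fun y => y.factorization q < l)).card := by
    rw [h3]
    have h6 : ((lev q D l).card : ℝ) * Real.log (D.card / (upp q D l).card) ≤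
        (upp q D l).card * Real.log (D.card / (upp q D l).card) :=
      mul_le_mul_of_nonneg_right (by linarith) hlog0
    rw [hg]
    simp only
    linarith
  have h7 : ∑ y ∈ upp q D (l + 1), g y ≤ (upp q D (l + 1)).card +
      (upp q D (l + 1)).card * Real.log (D.card / (upp q D (l + 1)).card) := by
    have h8 := upp_sum_all q (upp q D (l + 1))
    have h9 : ∀ y ∈ upp q D (l + 1), g y = Real.log (D.card / (upp q D (l + 1)).card) +
        Real.log (((upp q D (l + 1)).card : ℝ) /
          (upp q (upp q D (l + 1)) (y.factorization q)).card) := by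
      intro y hy
      have hy' := mem_filter.1 hy
      have h10 : upp q (upp q D (l + 1)) (y.factorization q) = upp q D (y.factorization q) := by
        unfold upp
        rw [filter_filter]
        apply filter_congr
        intro z _
        constructor
        · rintro ⟨_, h⟩; exact h
        · intro h; exact ⟨by omega, h⟩
      have p1 : (0 : ℝ) < (upp q D (l + 1)).card := by exact_mod_cast card_pos.2 ⟨y, hy⟩
      have p2 : (0 : ℝ) < (upp q D (y.factorization q)).card := by
        exact_mod_cast card_pos.2 ⟨y, lev_subset_upp q D _ (mem_lev_self hy'.1)⟩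
      rw [h10, hg]
      simp only
      rw [Real.log_div hNp.ne' p2.ne', Real.log_div hNp.ne' p1.ne', Real.log_div p1.ne' p2.ne']
      ring
    rw [sum_congr rfl h9, sum_add_distrib, sum_const, nsmul_eq_mul]
    linarith
  rw [hsplit]
  linarith

end Pool.Agent.Helper80.LL
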