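import Mathlib

set_option autoImplicit false

/-!
MP_120218_co, theorem LL: numerical inequalities for the product side.
-/

open Finset

namespace Pool.Agent.Helper80.LL

theorem mul_log_inv_le_half {x : ℝ} (hx : 0 ≤ x) : x * Real.log (1 / x) ≤ 1 / 2 := by
  rcases hx.eq_or_lt with h | h
  · rw [← h]; simp
  · have h1 := Real.log_le_sub_one_of_pos (show 0 < 1 / (2 * x) by positivity)
    have h2 := mul_le_mul_of_nonneg_left h1 hx
    have h3 : x * (1 / (2 * x) - 1) = 1 / 2 - x := by field_simp
    have h4 : Real.log (1 / (2 * x)) = Real.log (1 / x) - Real.log 2 := by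
      rw [one_div, one_div, mul_inv, Real.log_mul (by norm_num) (inv_ne_zero h.ne'), Real.log_inv]
      ring
    rw [h3, h4] at h2
    have h5 : Real.log 2 ≤ 1 := by
      have := Real.log_two_lt_d9
      linarith
    nlinarith

/-- Gibbs for `k` numbers -/
theorem gibbs {k : ℕ} (hk : 1 ≤ k) {b : Fin k → ℝ} (hb : ∀ i, 0 ≤ b i) :
    ∑ i, b i * Real.log (1 / b i) ≤
      (∑ i, b i) * Real.log k + (∑ i, b i) * Real.log (1 / ∑ i, b i) := by
  set B := ∑ i, b i with hB
  have hkp : (0 : ℝ) < k := by exact_mod_cast hk
  have hB0 : 0 ≤ B := sum_nonneg fun i _ => hb i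
  rcases hB0.eq_or_lt with h | h
  · have h1 : ∀ i ∈ univ, b i = 0 := by
      rw [← sum_eq_zero_iff_of_nonneg (fun i _ => hb i)]
      exact h.symm
    have h2 : ∑ i, b i * Real.log (1 / b i) = 0 := by
      apply sum_eq_zero
      intro i hi
      rw [h1 i hi]; simp
    rw [h2, ← h]; simp
  · have h1 : ∀ i ∈ univ, b i * Real.log (1 / b i) ≤
        b i * (Real.log k + Real.log (1 / B)) + (B / k - b i) := by
      intro i _
      rcases (hb i).eq_or_lt with h0 | h0
      · rw [← h0]
        simp only [zero_mul, sub_zero, zero_add]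
        positivity
      · have h2 := Real.log_le_sub_one_of_pos (show 0 < B / (k * b i) by positivity)
        have h3 := mul_le_mul_of_nonneg_left h2 (hb i)
        have h4 : b i * (B / (k * b i) - 1) = B / k - b i := by field_simp
        rw [Real.log_div h.ne' (by positivity), Real.log_mul hkp.ne' h0.ne', h4] at h3
        rw [one_div, one_div, Real.log_inv, Real.log_inv]
        linarith
    calc ∑ i, b i * Real.log (1 / b i)
        ≤ ∑ i, (b i * (Real.log k + Real.log (1 / B)) + (B / k - b i)) := sum_le_sum h1
      _ = B * Real.log k + B * Real.log (1 / B) := by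
          rw [sum_add_distrib, ← sum_mul, sum_sub_distrib, sum_const, card_univ, Fintype.card_fin,
            nsmul_eq_mul, ← hB, mul_div_cancel₀ _ hkp.ne']
          ring

/-- Weierstrass inequality -/
theorem one_sub_sum_le {ι : Type*} (s : Finset ι) {t : ι → ℝ} (h0 : ∀ i ∈ s, 0 ≤ t i)
    (h1 : ∀ i ∈ s, t i ≤ 1) : 1 - ∑ i ∈ s, t i ≤ ∏ i ∈ s, (1 - t i) := by
  classical
  induction s using Finset.induction_on with
  | empty => simp
  | insert a s ha ih =>
    rw [sum_insert ha, prod_insert ha]
    have h2 := ih (fun i hi => h0 i (mem_insert_of_mem hi)) (fun i hi => h1 i (mem_insert_of_mem hi))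
    have h3 := h0 a (mem_insert_self a s)
    have h4 := h1 a (mem_insert_self a s)
    have h5 : 0 ≤ ∑ i ∈ s, t i := sum_nonneg fun i hi => h0 i (mem_insert_of_mem hi)
    have h6 := mul_le_mul_of_nonneg_left h2 (by linarith : 0 ≤ 1 - t a)
    nlinarith

/-- The final numerical inequality of the product lemma: `E` is the entropy of the sum of the
valuations, `p` the probability that the sum differs from the sum of the main levels. -/
theorem prod_num {k : ℕ} (hk : 1 ≤ k) {t b : Fin k → ℝ} (hb : ∀ i, 0 ≤ b i) (hbt : ∀ i, b i ≤ t i)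
    {E p T : ℝ} (hT : T = ∑ i, t i) (hE : 0 ≤ E) (hp1 : T * (1 - T) ≤ p) (hp2 : p ≤ T)
    (hEp : p * Real.log (1 / p) ≤ E) :
    ∑ i, b i * Real.log (1 / b i) ≤ E + T * (Real.log k + 2) := by
  have hkp : (1 : ℝ) ≤ k := by exact_mod_cast hk
  have hlk : 0 ≤ Real.log k := Real.log_nonneg hkp
  have hB0 : 0 ≤ ∑ i, b i := sum_nonneg fun i _ => hb i
  have hBT : ∑ i, b i ≤ T := by rw [hT]; exact sum_le_sum fun i _ => hbt i
  have hT0 : 0 ≤ T := hB0.trans hBT
  have hg := gibbs hk hb
  set B := ∑ i, b i with hB
  have hBk : B * Real.log k ≤ T * Real.log k := mul_le_mul_of_nonneg_right hBT hlk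
  rcases le_or_gt (1 / 2) T with h | h
  · have h1 := mul_log_inv_le_half hB0
    linarith
  · rcases hT0.eq_or_lt with h0 | h0
    · have hB1 : B = 0 := by linarith
      rw [hB1] at hg
      rw [← h0]
      simp only [zero_mul, add_zero] at hg ⊢
      linarith
    · have hp0 : 0 < p := by nlinarith
      have hl1 : Real.log (1 / T) ≤ Real.log (1 / p) :=
        Real.log_le_log (by positivity) (one_div_le_one_div_of_le hp0 hp2)
      have hl0 : 0 ≤ Real.log (1 / T) := by
        apply Real.log_nonneg
        rw [le_div_iff₀ h0]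
        linarith
      have h2 : T * (1 - T) * Real.log (1 / T) ≤ E := by
        calc T * (1 - T) * Real.log (1 / T) ≤ p * Real.log (1 / T) :=
              mul_le_mul_of_nonneg_right hp1 hl0
          _ ≤ p * Real.log (1 / p) := mul_le_mul_of_nonneg_left hl1 hp0.le
          _ ≤ E := hEp
      have h3 := mul_log_inv_le_half hT0
      have h4 : T * Real.log (1 / T) - T / 2 ≤ E := by nlinarith
      have h5 : B * Real.log (1 / B) ≤ T * Real.log (1 / T) + T := by
        rcases hB0.eq_or_lt with hb0 | hb0
        · rw [← hb0]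
          simp only [zero_mul]
          positivity
        · have h6 := Real.log_le_sub_one_of_pos (div_pos h0 hb0)
          have h7 := mul_le_mul_of_nonneg_left h6 hB0
          have h8 : B * (T / B - 1) = T - B := by field_simp
          rw [Real.log_div h0.ne' hb0.ne', h8] at h7
          have h9 : B * Real.log (1 / T) ≤ T * Real.log (1 / T) :=
            mul_le_mul_of_nonneg_right hBT hl0
          rw [one_div, Real.log_inv] at h9 ⊢
          rw [one_div, Real.log_inv] at *
          nlinarith
      nlinarith

end Pool.Agent.Helper80.LL
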