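import Pool.Agent.Helper80.LL.Ent
import Pool.Agent.Helper80.LL.Lev
import Pool.Agent.Helper80.LL.Num

set_option autoImplicit false

/-!
MP_120218_co, theorem LL: the product lemma at one prime.
-/

open Finset

namespace Pool.Agent.Helper80.LL

variable {k : ℕ}

/-- number of tuples with one coordinate in `S` -/
theorem card_coord (D : Fin k → Finset ℕ) (i : Fin k) {S : Finset ℕ} (hS : S ⊆ D i) :
    ((Fintype.piFinset D).filter (fun y => y i ∈ S)).card =
      S.card * ∏ j ∈ univ \ {i}, (D j).card := by
  have h1 : (Fintype.piFinset D).filter (fun y => y i ∈ S) =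
      Fintype.piFinset (Function.update D i S) := by
    ext y
    rw [mem_filter, Fintype.mem_piFinset, Fintype.mem_piFinset]
    constructor
    · rintro ⟨h2, h3⟩ j
      by_cases hj : j = i
      · subst hj; simpa using h3
      · rw [Function.update_of_ne hj]; exact h2 j
    · intro h2
      constructor
      · intro j
        by_cases hj : j = i
        · subst hj
          have := h2 j
          rw [Function.update_self] at this
          exact hS this
        · have := h2 j
          rwa [Function.update_of_ne hj] at this
      · have := h2 i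
        rwa [Function.update_self] at this
  rw [h1, Fintype.card_piFinset]
  have h2 : (fun j => (Function.update D i S j).card) =
      Function.update (fun j => (D j).card) i S.card := by
    ext j
    by_cases hj : j = i
    · subst hj; simp
    · simp [Function.update_of_ne hj]
  rw [h2, prod_update_of_mem (mem_univ i)]

theorem card_pi_split (D : Fin k → Finset ℕ) (i : Fin k) :
    (Fintype.piFinset D).card = (D i).card * ∏ j ∈ univ \ {i}, (D j).card := by
  rw [Fintype.card_piFinset, ← mul_prod_erase univ _ (mem_univ i)]
  congr 2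
  ext j
  simp

/-- the product lemma at one prime -/
theorem prod_lemma (hk : 1 ≤ k) (q : ℕ) (D : Fin k → Finset ℕ) (hD : ∀ i, (D i).Nonempty) :
    ((Fintype.piFinset D).card : ℝ) *
      ∑ i, ((∑ y ∈ D i, Real.log (((D i).card : ℝ) / (lev q (D i) (y.factorization q)).card)) /
        (D i).card - (2 * Real.log k + 7) * (Lq q (D i) / (D i).card)) ≤
      En (Fintype.piFinset D) (fun y => ∑ i, (y i).factorization q) := by
  classical
  have hkp : (1 : ℝ) ≤ k := by exact_mod_cast hk
  have hlk : 0 ≤ Real.log k := Real.log_nonneg hkp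
  choose l hl1 hl2 using fun i => exists_level (q := q) (D := D i)
  set Ω := Fintype.piFinset D with hΩ
  have hΩne : Ω.Nonempty := Fintype.piFinset_nonempty.2 hD
  have hΩp : (0 : ℝ) < Ω.card := by exact_mod_cast card_pos.2 hΩne
  have hN : ∀ i, (0 : ℝ) < (D i).card := fun i => by exact_mod_cast card_pos.2 (hD i)
  -- the bad part of each coordinate
  set S : Fin k → Finset ℕ := fun i => (D i).filter (fun y => y.factorization q ≠ l i) with hS
  have hSc : ∀ i, ((S i).card : ℝ) = ((D i).filter (fun y => y.factorization q < l i)).card +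
      (upp q (D i) (l i + 1)).card := by
    intro i
    have h1 := card_split q (D i) (l i)
    have h2 := card_upp_succ q (D i) (l i)
    have h3 : (D i).card = (lev q (D i) (l i)).card + (S i).card := by
      rw [hS]
      unfold lev
      exact (card_filter_add_card_filter_not (s := D i)
        (fun y : ℕ => y.factorization q = l i)).symm
    have h4 : (S i).card = ((D i).filter (fun y => y.factorization q < l i)).card +
      (upp q (D i) (l i + 1)).card := by omega
    exact_mod_cast h4
  have hlevc : ∀ i, ((lev q (D i) (l i)).card : ℝ) = (D i).card - (S i).card := by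
    intro i
    have h3 : (D i).card = (lev q (D i) (l i)).card + (S i).card := by
      rw [hS]
      unfold lev
      exact (card_filter_add_card_filter_not (s := D i)
        (fun y : ℕ => y.factorization q = l i)).symm
    have : ((D i).card : ℝ) = (lev q (D i) (l i)).card + (S i).card := by exact_mod_cast h3
    linarith
  set t : Fin k → ℝ := fun i => ((S i).card : ℝ) / (D i).card with ht
  set b : Fin k → ℝ := fun i => ((upp q (D i) (l i + 1)).card : ℝ) / (D i).card with hb
  have hb0 : ∀ i, 0 ≤ b i := fun i => div_nonneg (by positivity) (by positivity)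
  have hbt : ∀ i, b i ≤ t i := by
    intro i
    rw [hb, ht]
    apply div_le_div_of_nonneg_right _ (hN i).le
    rw [hSc i]
    have : (0 : ℝ) ≤ ((D i).filter (fun y => y.factorization q < l i)).card := by positivity
    linarith
  have ht0 : ∀ i, 0 ≤ t i := fun i => (hb0 i).trans (hbt i)
  have ht1 : ∀ i, t i ≤ 1 := by
    intro i
    rw [ht]
    simp only
    rw [div_le_one (hN i)]
    exact_mod_cast card_le_card (filter_subset _ _)
  obtain ⟨T, hT⟩ : ∃ T : ℝ, T = ∑ i, t i := ⟨_, rfl⟩
  -- the test
  set V : (Fin k → ℕ) → ℕ := fun y => ∑ i, (y i).factorization q with hV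
  set P := Ω.filter (fun y => V y ≠ ∑ i, l i) with hP
  have hEn := En_ge (f := V) (filter_subset _ _ : P ⊆ Ω) (by
    intro w hw w' hw' h
    have hw2 := (mem_filter.1 hw).2
    exact mem_filter.2 ⟨hw', by rw [h]; exact hw2⟩)
  obtain ⟨p, hp⟩ : ∃ p : ℝ, p = (P.card : ℝ) / Ω.card := ⟨_, rfl⟩
  have hPp : (P.card : ℝ) = p * Ω.card := by rw [hp, div_mul_cancel₀ _ hΩp.ne']
  have hEp : p * Real.log (1 / p) ≤ En Ω V / Ω.card := by
    rw [le_div_iff₀ hΩp]
    refine le_trans (le_of_eq ?_) hEn
    have h1 : (Ω.card : ℝ) / P.card = 1 / p := by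
      rw [hp, one_div, inv_div]
    rw [h1, hPp]
    ring
  -- upper bound for p
  have hp2 : p ≤ T := by
    rw [hp, div_le_iff₀ hΩp]
    have h1 : P ⊆ univ.biUnion (fun i => Ω.filter (fun y => y i ∈ S i)) := by
      intro y hy
      rw [hP, mem_filter] at hy
      rw [mem_biUnion]
      by_contra hcon
      push Not at hcon
      apply hy.2
      rw [hV]
      simp only
      apply sum_congr rfl
      intro i _
      by_contra h2
      apply hcon i (mem_univ i)
      rw [mem_filter]
      refine ⟨hy.1, ?_⟩
      rw [hS]
      simp only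
      rw [mem_filter]
      exact ⟨Fintype.mem_piFinset.1 hy.1 i, h2⟩
    have h2 : (P.card : ℝ) ≤ ∑ i, ((Ω.filter (fun y => y i ∈ S i)).card : ℝ) := by
      exact_mod_cast (card_le_card h1).trans card_biUnion_le
    refine h2.trans (le_of_eq ?_)
    rw [hT, sum_mul]
    apply sum_congr rfl
    intro i _
    rw [card_coord D i (filter_subset _ _)]
    have h3 : (Ω.card : ℝ) = (D i).card * ∏ j ∈ univ \ {i}, ((D j).card : ℝ) := by
      have := card_pi_split D i
      rw [← hΩ] at this
      rw [this]
      push_cast
      rfl
    have h7 : t i * (D i).card = (S i).card := by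
      rw [ht]
      exact div_mul_cancel₀ _ (hN i).ne'
    rw [h3, ← mul_assoc, h7]
    push_cast
    rfl
  -- lower bound for p
  have hp1 : T * (1 - T) ≤ p := by
    set F : Fin k → Finset (Fin k → ℕ) := fun i =>
      Fintype.piFinset (Function.update (fun j => lev q (D j) (l j)) i (S i)) with hF
    have hFc : ∀ i, ((F i).card : ℝ) =
        (S i).card * ∏ j ∈ univ \ {i}, ((lev q (D j) (l j)).card : ℝ) := by
      intro i
      rw [hF]
      simp only
      rw [Fintype.card_piFinset]
      have h2 : (fun j => (Function.update (fun j => lev q (D j) (l j)) i (S i) j).card) =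
          Function.update (fun j => (lev q (D j) (l j)).card) i (S i).card := by
        ext j
        by_cases hj : j = i
        · subst hj; simp
        · simp [Function.update_of_ne hj]
      rw [h2, prod_update_of_mem (mem_univ i)]
      push_cast
      rfl
    have hFsub : ∀ i, F i ⊆ P := by
      intro i y hy
      rw [hF] at hy
      simp only at hy
      rw [Fintype.mem_piFinset] at hy
      have hyi : y i ∈ S i := by have := hy i; rwa [Function.update_self] at this
      have hyj : ∀ j, j ≠ i → y j ∈ lev q (D j) (l j) := by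
        intro j hj
        have := hy j
        rwa [Function.update_of_ne hj] at this
      rw [hP, mem_filter]
      constructor
      · rw [hΩ, Fintype.mem_piFinset]
        intro j
        by_cases hj : j = i
        · subst hj; exact filter_subset _ _ hyi
        · exact filter_subset _ _ (hyj j hj)
      · rw [hV]
        simp only
        rw [← add_sum_erase univ _ (mem_univ i), ← add_sum_erase univ l (mem_univ i)]
        have h4 : ∑ x ∈ univ.erase i, (y x).factorization q = ∑ x ∈ univ.erase i, l x := by
          apply sum_congr rfl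
          intro j hj
          exact (mem_filter.1 (hyj j (ne_of_mem_erase hj))).2
        rw [h4]
        have h5 := (mem_filter.1 hyi).2
        omega
    have hFdis : ∀ i ∈ (univ : Finset (Fin k)), ∀ j ∈ (univ : Finset (Fin k)), i ≠ j →
        Disjoint (F i) (F j) := by
      intro i _ j _ hij
      rw [disjoint_left]
      intro y hy hy'
      rw [hF] at hy hy'
      simp only at hy hy'
      rw [Fintype.mem_piFinset] at hy hy'
      have h1 : y i ∈ S i := by have := hy i; rwa [Function.update_self] at this
      have h2 : y i ∈ lev q (D i) (l i) := by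
        have := hy' i
        rwa [Function.update_of_ne hij] at this
      exact (mem_filter.1 h1).2 (mem_filter.1 h2).2
    have hcard : ∑ i, ((F i).card : ℝ) ≤ P.card := by
      have h1 : univ.biUnion F ⊆ P := by
        rw [biUnion_subset]
        intro i _
        exact hFsub i
      have h2 := card_le_card h1
      rw [card_biUnion hFdis] at h2
      exact_mod_cast h2
    rw [hp, le_div_iff₀ hΩp]
    refine le_trans ?_ hcard
    rw [hT, sum_mul, sum_mul]
    apply sum_le_sum
    intro i _
    rw [hFc i]
    have h3 : (Ω.card : ℝ) = (D i).card * ∏ j ∈ univ \ {i}, ((D j).card : ℝ) := by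
      have := card_pi_split D i
      rw [← hΩ] at this
      rw [this]
      push_cast
      rfl
    have h4 : ∏ j ∈ univ \ {i}, ((lev q (D j) (l j)).card : ℝ) =
        (∏ j ∈ univ \ {i}, (1 - t j)) * ∏ j ∈ univ \ {i}, ((D j).card : ℝ) := by
      rw [← prod_mul_distrib]
      apply prod_congr rfl
      intro j _
      have h7 : t j * (D j).card = (S j).card := by
        rw [ht]
        exact div_mul_cancel₀ _ (hN j).ne'
      rw [hlevc j, sub_mul, one_mul, h7]
    have h5 : 1 - T ≤ ∏ j ∈ univ \ {i}, (1 - t j) := by
      refine le_trans ?_ (one_sub_sum_le _ (fun j _ => ht0 j) (fun j _ => ht1 j))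
      rw [hT]
      have : ∑ j ∈ univ \ {i}, t j ≤ ∑ j, t j :=
        sum_le_sum_of_subset_of_nonneg (subset_univ _) fun j _ _ => ht0 j
      linarith
    have h6 : (0 : ℝ) ≤ ∏ j ∈ univ \ {i}, ((D j).card : ℝ) := prod_nonneg fun j _ => (hN j).le
    rw [h4, h3, ← hT]
    have h7 : t i * (D i).card = (S i).card := by
      rw [ht]
      exact div_mul_cancel₀ _ (hN i).ne'
    have h8 : (1 - T) * (((S i).card : ℝ) * ∏ j ∈ univ \ {i}, ((D j).card : ℝ)) ≤
        (∏ j ∈ univ \ {i}, (1 - t j)) * (((S i).card : ℝ) * ∏ j ∈ univ \ {i}, ((D j).card : ℝ)) :=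
      mul_le_mul_of_nonneg_right h5 (mul_nonneg (Nat.cast_nonneg _) h6)
    calc t i * (1 - T) * ((D i).card * ∏ j ∈ univ \ {i}, ((D j).card : ℝ))
        = (1 - T) * ((t i * (D i).card) * ∏ j ∈ univ \ {i}, ((D j).card : ℝ)) := by ring
      _ = (1 - T) * (((S i).card : ℝ) * ∏ j ∈ univ \ {i}, ((D j).card : ℝ)) := by rw [h7]
      _ ≤ _ := h8
      _ = _ := by ring
  have hE0 : 0 ≤ En Ω V / Ω.card := div_nonneg (En_nonneg _ _) hΩp.le
  have hnum := prod_num hk hb0 hbt hT hE0 hp1 hp2 hEp
  -- one coordinate
  have hcoord : ∀ i, (∑ y ∈ D i, Real.log (((D i).card : ℝ) /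
      (lev q (D i) (y.factorization q)).card)) / (D i).card ≤
      Lq q (D i) / (D i).card + t i + b i * Real.log (1 / b i) := by
    intro i
    have h1 := H_le (q := q) (hD i) (l i)
    rw [div_le_iff₀ (hN i)]
    refine h1.trans (le_of_eq ?_)
    have h2 : ((upp q (D i) (l i + 1)).card : ℝ) = b i * (D i).card := by
      rw [hb]
      exact (div_mul_cancel₀ _ (hN i).ne').symm
    have h3 : ((D i).card : ℝ) / (upp q (D i) (l i + 1)).card = 1 / b i := by
      rw [hb]
      simp only
      rw [one_div, inv_div]
    have h4 : t i * (D i).card = (S i).card := by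
      rw [ht]
      exact div_mul_cancel₀ _ (hN i).ne'
    have h5 : Lq q (D i) / (D i).card * (D i).card = Lq q (D i) := div_mul_cancel₀ _ (hN i).ne'
    rw [add_mul, add_mul, h5, h4, hSc i, h3]
    have h6 : b i * Real.log (1 / b i) * (D i).card =
        (b i * (D i).card) * Real.log (1 / b i) := by ring
    rw [h6, ← h2]
    ring
  have htL : ∀ i, t i / 2 ≤ Lq q (D i) / (D i).card := by
    intro i
    have h1 := Lq_ge (hl1 i) (hl2 i)
    rw [← hSc i] at h1
    rw [le_div_iff₀ (hN i)]
    refine le_trans (le_of_eq ?_) h1
    have h7 : t i * (D i).card = (S i).card := by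
      rw [ht]
      exact div_mul_cancel₀ _ (hN i).ne'
    rw [← h7]
    ring
  have hsum1 : ∑ i, (∑ y ∈ D i, Real.log (((D i).card : ℝ) /
      (lev q (D i) (y.factorization q)).card)) / (D i).card ≤
      ∑ i, (Lq q (D i) / (D i).card + t i + b i * Real.log (1 / b i)) :=
    sum_le_sum fun i _ => hcoord i
  have hsum2 : T / 2 ≤ ∑ i, Lq q (D i) / (D i).card := by
    rw [hT, sum_div]
    exact sum_le_sum fun i _ => htL i
  rw [sum_add_distrib, sum_add_distrib, ← hT] at hsum1
  have hfin : ∑ i, ((∑ y ∈ D i, Real.log (((D i).card : ℝ) /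
      (lev q (D i) (y.factorization q)).card)) / (D i).card -
        (2 * Real.log k + 7) * (Lq q (D i) / (D i).card)) ≤ En Ω V / Ω.card := by
    rw [sum_sub_distrib, ← mul_sum]
    have hT2 : T * (Real.log k + 3) ≤
        2 * (∑ i, Lq q (D i) / (D i).card) * (Real.log k + 3) :=
      mul_le_mul_of_nonneg_right (by linarith) (by linarith)
    linarith
  rw [le_div_iff₀ hΩp] at hfin
  linarith

end Pool.Agent.Helper80.LL
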