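import Pool.Agent.Helper80.LL.Defs
import Pool.Agent.Helper88.TL.Side
import Pool.Agent.Helper88.TL.Pair
import Pool.Agent.Helper88.TL.Rare

set_option autoImplicit false

/-!
MP_120218_co, theorem LL: the sum side.
-/

open Finset
open Pool.Agent.Helper84.SP
open Pool.Agent.Helper88.TL

namespace Pool.Agent.Helper80.LL

/-- the number of primes at most `K` in the list -/
def cnt (K : ℕ) (ps : List ℕ) : ℕ := (ps.filter (fun q => q ≤ K)).length

/-- the weight of the sums -/
def W : ℝ := 8000000

theorem cnt_cons_le (K q : ℕ) (ps : List ℕ) : cnt K ps ≤ cnt K (q :: ps) := by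
  unfold cnt
  rw [List.filter_cons]
  split_ifs
  · rw [List.length_cons]; omega
  · exact le_rfl

theorem cnt_cons_small {K q : ℕ} (h : q ≤ K) (ps : List ℕ) :
    cnt K (q :: ps) = cnt K ps + 1 := by
  unfold cnt
  rw [List.filter_cons, if_pos (by simpa using h), List.length_cons]

/-- the real-number part of the induction step -/
theorem SumMain_combine {η θ A A₁ A₀ d L E c₁ c₀ p₁ p₀ N w δ p : ℝ} (hη : 0 ≤ η) (hθ : 0 ≤ θ)
    (hs : η + θ = 1) (h0 : p₀ ≤ A₀ + d + L + c₀) (h1 : p₁ - c₁ - L + E + w * δ ≤ A₁ + d)
    (hnode : η * A₁ + θ * A₀ + N ≤ A + η * E + w * η * δ + θ * (c₁ - c₀))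
    (hp : p = N + θ * p₀ + η * p₁) : p ≤ A + d + L + c₁ := by
  have e0 := mul_le_mul_of_nonneg_left h0 hθ
  have e1 := mul_le_mul_of_nonneg_left h1 hη
  have e2 : θ = 1 - η := by linarith
  rw [hp]
  subst e2
  nlinarith

/-- the main induction: the sums pay for the defect -/
theorem mainLL {lam : ℝ} (h0 : 0 < lam) (h1 : lam ≤ 1) :
    ∀ ps : List ℕ, (∀ q ∈ ps, q.Prime) → ∀ D : Finset ℕ, D.Nonempty → (∀ y ∈ D, 0 < y) →
      ∀ X X' : Finset ℤ, X.Nonempty → X'.Nonempty →
        Psi ps D / D.card ≤ W * (I al X D + I al X' D + dd X X') +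
          lam * (Real.log X.card + Real.log X'.card) +
          Real.log (576 / lam ^ 2) * cnt (Q0 (100 / lam)) ps := by
  classical
  have hW : (0 : ℝ) < W := by unfold W; norm_num
  have hlam2 : 0 < lam ^ 2 := by positivity
  have hG0 : 0 ≤ Real.log (576 / lam ^ 2) := by
    apply Real.log_nonneg
    rw [le_div_iff₀ hlam2]
    nlinarith
  obtain ⟨G, hG⟩ : ∃ G : ℝ, G = Real.log (576 / lam ^ 2) := ⟨_, rfl⟩
  obtain ⟨K, hK⟩ : ∃ K : ℕ, K = Q0 (100 / lam) := ⟨_, rfl⟩
  rw [← hG] at hG0
  have hnonneg : ∀ (D : Finset ℕ) (X X' : Finset ℤ), X.Nonempty → X'.Nonempty →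
      0 ≤ W * (I al X D + I al X' D + dd X X') ∧
        0 ≤ lam * (Real.log X.card + Real.log X'.card) := by
    intro D X X' hX hX'
    have hX1 : (1 : ℝ) ≤ X.card := by exact_mod_cast card_pos.2 hX
    have hX1' : (1 : ℝ) ≤ X'.card := by exact_mod_cast card_pos.2 hX'
    have a1 := I_nonneg al X D
    have a2 := I_nonneg al X' D
    have a3 := dd_nonneg X X'
    have a4 := Real.log_nonneg hX1
    have a5 := Real.log_nonneg hX1'
    constructor <;> positivity
  intro ps
  rw [← hG, ← hK]
  induction ps with
  | nil =>
    intro _ D _ _ X X' hX hX'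
    obtain ⟨a1, a2⟩ := hnonneg D X X' hX hX'
    have a3 : 0 ≤ G * (cnt K [] : ℝ) := by positivity
    simp only [Psi, zero_div]
    linarith
  | cons q ps ihps =>
    intro hps
    have hqp : q.Prime := hps q (List.mem_cons_self ..)
    have hps' : ∀ q' ∈ ps, q'.Prime := fun q' hq' => hps q' (List.mem_cons_of_mem _ hq')
    have key : ∀ n : ℕ, ∀ D : Finset ℕ, D.card = n → D.Nonempty → (∀ y ∈ D, 0 < y) →
        ∀ X X' : Finset ℤ, X.Nonempty → X'.Nonempty →
        Psi (q :: ps) D / D.card ≤ W * (I al X D + I al X' D + dd X X') +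
          lam * (Real.log X.card + Real.log X'.card) + G * cnt K (q :: ps) := by
      intro n
      induction n using Nat.strong_induction_on with
      | _ n ih =>
      intro D hcard hDne hpos X X' hX hX'
      obtain ⟨ym, hym, hmin⟩ := exists_min_image D (fun y => y.factorization q) hDne
      obtain ⟨l, hl⟩ : ∃ l, l = ym.factorization q := ⟨_, rfl⟩
      rw [← hl] at hmin
      obtain ⟨D₀, hD₀⟩ : ∃ D₀, D₀ = D.filter (fun y => y.factorization q = l) := ⟨_, rfl⟩
      obtain ⟨D₁, hD₁⟩ : ∃ D₁, D₁ = D.filter (fun y => l < y.factorization q) := ⟨_, rfl⟩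
      have h₀ : D₀.Nonempty := ⟨ym, by rw [hD₀, mem_filter]; exact ⟨hym, hl.symm⟩⟩
      have hcnt : G * (cnt K ps : ℝ) ≤ G * (cnt K (q :: ps) : ℝ) := by
        apply mul_le_mul_of_nonneg_left _ hG0
        exact_mod_cast cnt_cons_le K q ps
      rcases D₁.eq_empty_or_nonempty with hemp | h₁
      · -- the valuation is constant
        have hall : ∀ y ∈ D, y.factorization q = l := by
          intro y hy
          by_contra hne
          have : y ∈ D₁ := by
            rw [hD₁, mem_filter]
            exact ⟨hy, lt_of_le_of_ne (hmin y hy) (Ne.symm hne)⟩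
          rw [hemp] at this
          exact notMem_empty _ this
        rw [Psi_const hDne hall]
        have := ihps hps' D hDne hpos X X' hX hX'
        linarith
      have hdis : Disjoint D₁ D₀ := by
        rw [hD₁, hD₀, disjoint_filter]
        intro y _ hy hy'
        omega
      have hun : D = D₁ ∪ D₀ := by
        ext y
        rw [hD₁, hD₀, mem_union, mem_filter, mem_filter]
        constructor
        · intro hy
          rcases (hmin y hy).lt_or_eq with h | h
          · exact Or.inl ⟨hy, h⟩
          · exact Or.inr ⟨hy, h.symm⟩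
        · rintro (h | h) <;> exact h.1
      have hD₀v : ∀ y ∈ D₀, y.factorization q = l := fun y hy => by
        rw [hD₀, mem_filter] at hy; exact hy.2
      have hD₁v : ∀ y ∈ D₁, l < y.factorization q := fun y hy => by
        rw [hD₁, mem_filter] at hy; exact hy.2
      have hsub0 : D₀ ⊆ D := by rw [hD₀]; exact filter_subset _ _
      have hsub1 : D₁ ⊆ D := by rw [hD₁]; exact filter_subset _ _
      have hp1 : (0 : ℝ) < D₁.card := by exact_mod_cast card_pos.2 h₁
      have hp0 : (0 : ℝ) < D₀.card := by exact_mod_cast card_pos.2 h₀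
      have hsumN : D.card = D₁.card + D₀.card := by
        rw [hun, card_union_of_disjoint hdis]
      have hsum : (D.card : ℝ) = D₁.card + D₀.card := by exact_mod_cast hsumN
      have hpD : (0 : ℝ) < D.card := by linarith
      have hlt1 : D₁.card < n := by
        have := card_pos.2 h₀
        omega
      have hA1 : ∀ y ∈ D₁, piA q l (al y) = 0 := by
        intro y hy
        rw [piA_al, ZMod.natCast_eq_zero_iff]
        exact (hqp.pow_dvd_iff_le_factorization (hpos y (hsub1 hy)).ne').2 (hD₁v y hy)
      have hA0 : ∀ y ∈ D₀, piA q l (al y) ≠ 0 := by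
        intro y hy h
        rw [piA_al, ZMod.natCast_eq_zero_iff] at h
        have h3 := (hqp.pow_dvd_iff_le_factorization (hpos y (hsub0 hy)).ne').1 h
        rw [hD₀v y hy] at h3
        omega
      obtain ⟨η, hη⟩ : ∃ η : ℝ, η = D₁.card / D.card := ⟨_, rfl⟩
      obtain ⟨θ, hθ⟩ : ∃ θ : ℝ, θ = D₀.card / D.card := ⟨_, rfl⟩
      have hηp : 0 < η := by rw [hη]; exact div_pos hp1 hpD
      have hθp : 0 < θ := by rw [hθ]; exact div_pos hp0 hpD
      have hηs : η + θ = 1 := by
        rw [hη, hθ, ← add_div, ← hsum, div_self hpD.ne']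
      -- the splitting of the defect
      have hsplit : Psi (q :: ps) D / D.card =
          -(θ * Real.log θ) + θ * (Psi ps D₀ / D₀.card) + η * (Psi (q :: ps) D₁ / D₁.card) := by
        rw [Psi_split hmin hD₀ hD₁ h₀]
        have e1 : Real.log ((D.card : ℝ) / D₀.card) = -Real.log θ := by
          rw [hθ, ← Real.log_inv, inv_div]
        have e2 : ∀ a b c e d L : ℝ, 0 < c → 0 < e → 0 < d →
            (c * -L + a + b) / d = -(c / d * L) + c / d * (a / c) + e / d * (b / e) := by
          intro a b c e d L hc he hd
          field_simp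
        rw [e1, e2 _ _ _ _ _ _ hp0 hp1 hpD, ← hη, ← hθ]
      -- induction hypotheses
      have ih0 := ihps hps' D₀ h₀ (fun y hy => hpos y (hsub0 hy)) X X' hX hX'
      have ih1 : ∀ δ : ℝ, PG (piA q l) X X' δ →
          Psi (q :: ps) D₁ / D₁.card - G * cnt K (q :: ps) -
            lam * (Real.log X.card + Real.log X'.card) +
            lam * (Ent (piA q l) X / X.card + Ent (piA q l) X' / X'.card) + W * δ ≤
          W * (I al X D₁ + I al X' D₁) + W * dd X X' := by
        intro δ hδ
        apply pair_classes (piA q l) hX hX' h₁ hA1 hW.le hδ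
        intro X₁ X₁' _ _ hX₁ hX₁'
        have h3 := ih D₁.card hlt1 D₁ rfl h₁ (fun y hy => hpos y (hsub1 hy)) X₁ X₁' hX₁ hX₁'
        have h4 : W * (I al X₁ D₁ + I al X₁' D₁ + dd X₁ X₁') =
            W * (I al X₁ D₁ + I al X₁' D₁) + W * dd X₁ X₁' := by ring
        linarith
      have hNη : -(θ * Real.log θ) ≤ η := by
        have h3 := Real.log_le_sub_one_of_pos (show 0 < θ⁻¹ by positivity)
        rw [Real.log_inv] at h3
        have h4 := mul_le_mul_of_nonneg_left h3 hθp.le
        have h5 : θ * (θ⁻¹ - 1) = 1 - θ := by field_simp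
        linarith
      -- the node inequality
      obtain ⟨δ, hδ, hnode⟩ : ∃ δ : ℝ, PG (piA q l) X X' δ ∧
          η * (W * (I al X D₁ + I al X' D₁)) + θ * (W * (I al X D₀ + I al X' D₀)) +
            -(θ * Real.log θ) ≤ W * (I al X D + I al X' D) +
            η * (lam * (Ent (piA q l) X / X.card + Ent (piA q l) X' / X'.card)) + W * η * δ +
            θ * (G * cnt K (q :: ps) - G * cnt K ps) := by
        have hcz : 0 ≤ θ * (G * (cnt K (q :: ps) : ℝ) - G * cnt K ps) :=
          mul_nonneg hθp.le (by linarith)
        by_cases hqK : Q0 (100 / lam) ≤ q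
        · -- large primes
          obtain ⟨δ, hδ, h3⟩ := side_big hqp hX hX' hdis hun h₁ h₀ hA1 hA0 (lam := lam)
            (B := 100 / lam) (Lam := 50) (w := W) (N := -(θ * Real.log θ)) hη hθ h0 le_rfl
            (by positivity) (by rw [mul_div_cancel₀ _ h0.ne']; norm_num)
            (by unfold W; norm_num) hqK (fun _ => by linarith) (fun _ => by
              unfold hh
              have h4 : Real.log η ≤ 0 := Real.log_nonpos hηp.le (by linarith)
              have h5 := mul_nonpos_of_nonneg_of_nonpos hηp.le h4
              linarith)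
          refine ⟨δ, hδ, ?_⟩
          have h4 : lam * η * (Ent (piA q l) X / X.card + Ent (piA q l) X' / X'.card) =
              η * (lam * (Ent (piA q l) X / X.card + Ent (piA q l) X' / X'.card)) := by ring
          rw [h4] at h3
          linarith
        · -- small primes
          push Not at hqK
          refine ⟨0, PG_zero _ _ _, ?_⟩
          have hcs : (cnt K (q :: ps) : ℝ) = cnt K ps + 1 := by
            rw [cnt_cons_small (by rw [hK]; exact hqK.le)]
            push_cast
            ring
          have hE : 0 ≤ Ent (piA q l) X / X.card :=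
            div_nonneg (Ent_nonneg _ _) (Nat.cast_nonneg _)
          have hE' : 0 ≤ Ent (piA q l) X' / X'.card :=
            div_nonneg (Ent_nonneg _ _) (Nat.cast_nonneg _)
          have hsup' := I_super (α := al) hX' hdis hun h₁ h₀
          rw [← hη, ← hθ] at hsup'
          have hsupW' := mul_le_mul_of_nonneg_left hsup' hW.le
          have hEE' : 0 ≤ η * (lam * (Ent (piA q l) X' / X'.card)) := by positivity
          by_cases hθs : θ ≤ 1 / (576 * (1 / lam) ^ 2)
          · have hrare := rare_w (piA q l) (α := al) hX hdis hun h₁ h₀ hA1 hA0 (g := 1)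
              (R := 1 / lam) (lam := lam) (w := W) (by rw [le_div_iff₀ h0, one_mul]; exact h1) h0
              (by rw [mul_div_cancel₀ _ h0.ne']) (by unfold W; norm_num)
              (by rw [← hθ]; exact hθs)
            rw [← hη, ← hθ] at hrare
            have h4 : -(θ * Real.log θ) ≤ hh η θ := by
              unfold hh
              have h4 : Real.log η ≤ 0 := Real.log_nonpos hηp.le (by linarith)
              have h5 := mul_nonpos_of_nonneg_of_nonpos hηp.le h4
              linarith
            nlinarith
          · push Not at hθs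
            have hsup := I_super (α := al) hX hdis hun h₁ h₀
            rw [← hη, ← hθ] at hsup
            have hsupW := mul_le_mul_of_nonneg_left hsup hW.le
            have hEE : 0 ≤ η * (lam * (Ent (piA q l) X / X.card)) := by positivity
            have h4 : -(θ * Real.log θ) ≤ θ * G := by
              have h5 : lam ^ 2 / 576 < θ := by
                refine lt_of_eq_of_lt ?_ hθs
                field_simp
              have h6 : Real.log (lam ^ 2 / 576) ≤ Real.log θ :=
                Real.log_le_log (by positivity) h5.le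
              have h7 : Real.log (lam ^ 2 / 576) = -G := by
                rw [hG, ← Real.log_inv, inv_div]
              have h8 := mul_le_mul_of_nonneg_left h6 hθp.le
              rw [h7] at h8
              linarith
            have h5 : θ * (G * (cnt K (q :: ps) : ℝ) - G * cnt K ps) = θ * G := by
              rw [hcs]; ring
            rw [h5]
            nlinarith
      have h4 : W * (I al X D + I al X' D + dd X X') =
          W * (I al X D + I al X' D) + W * dd X X' := by ring
      have h5 : W * (I al X D₀ + I al X' D₀ + dd X X') =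
          W * (I al X D₀ + I al X' D₀) + W * dd X X' := by ring
      rw [h4]
      rw [h5] at ih0
      exact SumMain_combine hηp.le hθp.le hηs ih0 (ih1 δ hδ) hnode hsplit
    intro D hDne hpos X X' hX hX'
    exact key D.card D rfl hDne hpos X X' hX hX'

end Pool.Agent.Helper80.LL
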